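import Mathlib
import Pool.Agent.U955.EM.Final

/-! The lattice of the finite subsets of `βω` embeds, in ZFC, into the weak P-points with the
Rudin-Keisler order. -/

set_option autoImplicit false

namespace Pool.Agent.Results.MP_6d359a_lc.OrderEmbedding

/-- the space `ω*` of the nonprincipal ultrafilters -/
def omegaStar : Set (Ultrafilter ℕ) := {u | ∀ n : ℕ, u ≠ pure n}

/-- weak P-points: not in the closure of any countable subset of `ω* \ {u}` -/
def IsWeakPPoint (u : Ultrafilter ℕ) : Prop :=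
  u ∈ omegaStar ∧ ∀ C : Set (Ultrafilter ℕ), C.Countable → C ⊆ omegaStar \ {u} → u ∉ closure C

/-- the Rudin-Keisler preorder: `u` is the image of `v` under a map `f : ω → ω` -/
def RKle (u v : Ultrafilter ℕ) : Prop := ∃ f : ℕ → ℕ, u = v.map f

theorem np_iff (u : Ultrafilter ℕ) : Pool.Agent.R595.WP.NP u ↔ u ∈ omegaStar := by
  constructor
  · rintro h n rfl
    exact h n (Ultrafilter.mem_pure.2 rfl)
  · intro h n hn
    refine h n (Pool.Agent.R595.WP.eq_of_le fun S hS => ?_)
    obtain ⟨m, hm1, hm2⟩ := Ultrafilter.nonempty_of_mem (Filter.inter_mem hn hS)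
    rw [Ultrafilter.mem_pure]
    have : m = n := hm1
    exact this ▸ hm2

theorem result : ∃ e : Finset (Ultrafilter ℕ) → Ultrafilter ℕ,
    (∀ X, IsWeakPPoint (e X)) ∧ ∀ X Y, X ⊆ Y ↔ RKle (e X) (e Y) := by
  classical
  letI : LinearOrder (Ultrafilter ℕ) := linearOrderOfSTO WellOrderingRel
  obtain ⟨e, h1, h2⟩ := Pool.Agent.U955.EM.exists_embedding (Ultrafilter ℕ) (fun u j => j ∈ u)
    (fun x z h => Pool.Agent.R595.WP.eq_of_le fun S hS => (h S).1 hS)
  refine ⟨e, fun X => ⟨(np_iff _).1 (h1 X).1, fun C hC hCs => ?_⟩, fun X Y => ?_⟩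
  · exact (h1 X).2 C hC (fun p hp => (np_iff p).2 (hCs hp).1) fun h => (hCs h).2 rfl
  · rw [h2 X Y]
    constructor
    · rintro ⟨f, hf⟩
      exact ⟨f, hf.symm⟩
    · rintro ⟨f, hf⟩
      exact ⟨f, hf.symm⟩

end Pool.Agent.Results.MP_6d359a_lc.OrderEmbedding
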